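import Pool.Agent.W545.Tor.Final
set_option autoImplicit false
open Filter Topology Pool.Agent.W545.Tor

/-!
# Large first Steklov eigenvalue under volume bounds in dimension 3

On the compact connected 3-manifold `M = 𝕋² × [0,1]` there are smooth Riemannian metrics `g n` with
`Vol(∂M, g n) = 2`, `Vol(M, g n) → 0` and `σ₁(M, g n) → ∞`.  The definitions are in
`Pool/Agent/W545/Tor/Defs.lean`.
-/

namespace Pool.Agent.Results.MP_441052_gt.ThinTorusShell

/-- On `M = 𝕋² × [0,1]` there is a sequence of smooth Riemannian metrics whose boundary areas are all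
equal to `2`, whose volumes tend to `0` and whose first Steklov eigenvalues tend to infinity. -/
theorem result : ∃ g : ℕ → P → Matrix (Fin 3) (Fin 3) ℝ,
    (∀ n, IsMetric (g n)) ∧ (∀ n, bdryArea (g n) = 2) ∧
    Tendsto (fun n => vol (g n)) atTop (𝓝 0) ∧
    Tendsto (fun n => sigma1 (g n)) atTop atTop :=
  Pool.Agent.W545.Tor.main

end Pool.Agent.Results.MP_441052_gt.ThinTorusShell
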